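import Pool.Agent.EVF.StmtsS

/-!
Squad EVF, row RES: elimination of one parameter.
-/

set_option autoImplicit false

namespace Pool.Agent.EVF.H1

open MvPolynomial

/-- Gauss and Bezout: two polynomials in one variable over a unique factorization domain. -/
theorem elim {R : Type*} [CommRing R] [IsDomain R] [UniqueFactorizationMonoid R]
    (f g : Polynomial R) (hf : Irreducible f) (hd : f.natDegree ≠ 0) (hfg : ¬ f ∣ g) :
    ∃ (c : R) (a b : Polynomial R), c ≠ 0 ∧ a * f + b * g = Polynomial.C c := by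
  let K := FractionRing R
  have hp : f.IsPrimitive := hf.isPrimitive hd
  have hfK : Irreducible (f.map (algebraMap R K)) :=
    hp.irreducible_iff_irreducible_map_fraction_map.1 hf
  have hnd : ¬ f.map (algebraMap R K) ∣ g.map (algebraMap R K) := fun h =>
    hfg (hp.dvd_of_fraction_map_dvd_fraction_map h)
  obtain ⟨a', b', hab⟩ := hfK.coprime_iff_not_dvd.2 hnd
  obtain ⟨r, hr, ha⟩ := IsLocalization.integerNormalization_spec (nonZeroDivisors R) a'
  obtain ⟨s, hs, hb⟩ := IsLocalization.integerNormalization_spec (nonZeroDivisors R) b'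
  obtain ⟨a, ha0⟩ : ∃ a, a = IsLocalization.integerNormalization (nonZeroDivisors R) a' :=
    ⟨_, rfl⟩
  obtain ⟨b, hb0⟩ : ∃ b, b = IsLocalization.integerNormalization (nonZeroDivisors R) b' :=
    ⟨_, rfl⟩
  rw [← ha0] at ha
  rw [← hb0] at hb
  refine ⟨r * s, Polynomial.C s * a, Polynomial.C r * b,
    mul_ne_zero (nonZeroDivisors.ne_zero hr) (nonZeroDivisors.ne_zero hs), ?_⟩
  apply Polynomial.map_injective (algebraMap R K) (IsFractionRing.injective R K)
  simp only [Polynomial.map_add, Polynomial.map_mul, Polynomial.map_C]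
  rw [ha, hb]
  have h1 : ∀ (c : R) (p : Polynomial K), c • p = Polynomial.C (algebraMap R K c) * p := by
    intro c p
    rw [← Polynomial.smul_eq_C_mul, algebraMap_smul]
  rw [h1, h1, map_mul, Polynomial.C_mul]
  have h2 : Polynomial.C (algebraMap R K s) * (Polynomial.C (algebraMap R K r) * a') *
      f.map (algebraMap R K) + Polynomial.C (algebraMap R K r) *
      (Polynomial.C (algebraMap R K s) * b') * g.map (algebraMap R K) =
      Polynomial.C (algebraMap R K r) * Polynomial.C (algebraMap R K s) *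
      (a' * f.map (algebraMap R K) + b' * g.map (algebraMap R K)) := by ring
  rw [h2, hab, mul_one]

theorem res : ResStmt := by
  intro k l φ χ hφ hl hdvd
  obtain _ | n := k
  · exact l.elim0
  let e : MvPolynomial (Fin (n + 1)) ℤ ≃ₐ[ℤ] Polynomial (MvPolynomial (Fin n) ℤ) :=
    (renameEquiv ℤ (Equiv.swap l 0)).trans (finSuccEquiv ℤ n)
  have hdeg : ∀ p, (e p).natDegree = degreeOf l p := by
    intro p
    have h1 : e p = finSuccEquiv ℤ n (rename (Equiv.swap l 0) p) := rfl
    rw [h1, natDegree_finSuccEquiv]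
    have h2 := degreeOf_rename_of_injective (p := p) (Equiv.swap l 0).injective l
    rw [Equiv.swap_apply_left] at h2
    exact h2
  have hf : Irreducible (e φ) := (MulEquiv.irreducible_iff e).2 hφ
  have hd : (e φ).natDegree ≠ 0 := by
    rw [hdeg]
    intro h0
    obtain ⟨a, ha, hal⟩ := hl
    have h1 := degreeOf_le_iff.1 h0.le a ha
    omega
  have hfg : ¬ e φ ∣ e χ := by
    rintro ⟨c, hc⟩
    refine hdvd ⟨e.symm c, ?_⟩
    apply e.injective
    rw [map_mul, AlgEquiv.apply_symm_apply]
    exact hc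
  obtain ⟨c, a, b, hc, hab⟩ := elim (e φ) (e χ) hf hd hfg
  refine ⟨e.symm (Polynomial.C c), ?_, ?_, ?_⟩
  · intro h
    rw [map_eq_zero_iff _ e.symm.injective, Polynomial.C_eq_zero] at h
    exact hc h
  · have h1 : degreeOf l (e.symm (Polynomial.C c)) ≤ 0 := by
      rw [← hdeg, AlgEquiv.apply_symm_apply, Polynomial.natDegree_C]
    intro a ha
    exact Nat.le_zero.1 (degreeOf_le_iff.1 h1 a ha)
  · rw [Ideal.mem_span_pair]
    refine ⟨e.symm a, e.symm b, ?_⟩
    apply e.injective
    rw [map_add, map_mul, map_mul, AlgEquiv.apply_symm_apply, AlgEquiv.apply_symm_apply,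
      AlgEquiv.apply_symm_apply]
    exact hab

end Pool.Agent.EVF.H1
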